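import Pool.Agent.K4H34.NM.Rep

/-!
# Counting eigenvalues of `H` and `K` in four disjoint caps

`H`, `K` Hermitian, `c ^ 2 + s ^ 2 = 1`, `s > 0`, `‖s H + i (K - c H)‖ < δ`, the ellipse
`X ^ 2 + Y ^ 2 - 2 c X Y = δ ^ 2`.
-/

set_option autoImplicit false
set_option linter.all false

open Matrix Complex
open scoped Matrix.Norms.L2Operator ComplexOrder

namespace Pool.Agent.K4H34.NM

variable {ι : Type} [Fintype ι] [DecidableEq ι]

theorem nsq_eq_zero {x : ι → ℂ} (h : nsq x = 0) : x = 0 := by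
  by_contra hx
  exact (nsq_pos hx).ne' h

theorem nsq_unitary {U : Matrix ι ι ℂ} (hU : Uᴴ * U = 1) (x : ι → ℂ) : nsq (U *ᵥ x) = nsq x := by
  have h1 : ((nsq (U *ᵥ x) : ℝ) : ℂ) = ((nsq x : ℝ) : ℂ) := by
    rw [← star_dot, ← star_dot, star_mulVec, ← dotProduct_mulVec, mulVec_mulVec, hU, one_mulVec]
  exact_mod_cast h1

/-- Counting of the eigenvalues which are at least `a`. -/
theorem count_ge {V W : Matrix ι ι ℂ} (hV : Vᴴ * V = 1) (h X : ι → ℝ) (Xg a : ℝ) (hXg : Xg ≤ a)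
    (hWi : ∀ x, W *ᵥ x = 0 → x = 0) (hWc : ∀ x, nsq (W *ᵥ x) ≤ nsq x)
    (hrep : ∀ x, ∑ j, h j * ‖x j‖ ^ 2 =
      ∑ j, X j * ‖(W *ᵥ (V *ᵥ x)) j‖ ^ 2 + Xg * (nsq (V *ᵥ x) - nsq (W *ᵥ (V *ᵥ x)))) :
    (Finset.univ.filter fun i => a ≤ h i).card ≤ (Finset.univ.filter fun j => a ≤ X j).card := by
  classical
  have hcard1 : (Finset.univ.filter fun i => a ≤ h i).card = Fintype.card {i // a ≤ h i} := by
    rw [Fintype.card_subtype]
  have hcard2 : (Finset.univ.filter fun j => a ≤ X j).card = Fintype.card {j // a ≤ X j} := by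
    rw [Fintype.card_subtype]
  rw [hcard1, hcard2, ← Module.finrank_fintype_fun_eq_card ℂ (η := {i // a ≤ h i}),
    ← Module.finrank_fintype_fun_eq_card ℂ (η := {j // a ≤ X j})]
  -- extension by zero
  let ext0 : ({i // a ≤ h i} → ℂ) →ₗ[ℂ] (ι → ℂ) :=
    { toFun := fun ξ i => if hi : a ≤ h i then ξ ⟨i, hi⟩ else 0
      map_add' := by
        intro ξ η
        ext i
        by_cases hi : a ≤ h i <;> simp [hi]
      map_smul' := by
        intro c ξ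
        ext i
        by_cases hi : a ≤ h i <;> simp [hi] }
  let L : ({i // a ≤ h i} → ℂ) →ₗ[ℂ] ({j // a ≤ X j} → ℂ) :=
    (LinearMap.funLeft ℂ ℂ (Subtype.val : {j // a ≤ X j} → ι)) ∘ₗ (Matrix.mulVecLin (W * V)) ∘ₗ ext0
  refine LinearMap.finrank_le_finrank_of_injective (f := L) ?_
  rw [injective_iff_map_eq_zero]
  intro ξ hξ
  set x : ι → ℂ := ext0 ξ with hx
  have hx0 : ∀ i, ¬ a ≤ h i → x i = 0 := fun i hi => by
    rw [hx]; show (if hi : a ≤ h i then ξ ⟨i, hi⟩ else 0) = 0; rw [dif_neg hi]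
  have hw0 : ∀ j, a ≤ X j → (W *ᵥ (V *ᵥ x)) j = 0 := by
    intro j hj
    have h1 := congrFun hξ ⟨j, hj⟩
    rw [mulVec_mulVec]
    exact h1
  have h2 := hrep x
  have h3 : a * nsq x ≤ ∑ j, h j * ‖x j‖ ^ 2 := by
    unfold nsq
    rw [Finset.mul_sum]
    refine Finset.sum_le_sum fun j _ => ?_
    by_cases hj : a ≤ h j
    · exact mul_le_mul_of_nonneg_right hj (by positivity)
    · rw [hx0 j hj]; simp
  have hVx : nsq (V *ᵥ x) = nsq x := nsq_unitary hV x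
  have hdef : 0 ≤ nsq (V *ᵥ x) - nsq (W *ᵥ (V *ᵥ x)) := sub_nonneg.2 (hWc _)
  have h4 : ∑ j, X j * ‖(W *ᵥ (V *ᵥ x)) j‖ ^ 2 ≤ a * nsq (W *ᵥ (V *ᵥ x)) := by
    unfold nsq
    rw [Finset.mul_sum]
    refine Finset.sum_le_sum fun j _ => ?_
    by_cases hj : a ≤ X j
    · rw [hw0 j hj]; simp
    · exact mul_le_mul_of_nonneg_right (not_le.1 hj).le (by positivity)
  have h5 : Xg * (nsq (V *ᵥ x) - nsq (W *ᵥ (V *ᵥ x))) ≤
      a * (nsq (V *ᵥ x) - nsq (W *ᵥ (V *ᵥ x))) := mul_le_mul_of_nonneg_right hXg hdef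
  -- equality everywhere
  have h6 : ∑ j, (a - X j) * ‖(W *ᵥ (V *ᵥ x)) j‖ ^ 2 ≤ 0 := by
    have h7 : ∑ j, (a - X j) * ‖(W *ᵥ (V *ᵥ x)) j‖ ^ 2 = a * nsq (W *ᵥ (V *ᵥ x)) -
        ∑ j, X j * ‖(W *ᵥ (V *ᵥ x)) j‖ ^ 2 := by
      unfold nsq
      rw [Finset.mul_sum, ← Finset.sum_sub_distrib]
      refine Finset.sum_congr rfl fun j _ => ?_
      ring
    rw [h7]
    rw [hVx] at h2 h5
    nlinarith
  have h8 : ∀ j ∈ Finset.univ, 0 ≤ (a - X j) * ‖(W *ᵥ (V *ᵥ x)) j‖ ^ 2 := by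
    intro j _
    by_cases hj : a ≤ X j
    · rw [hw0 j hj]; simp
    · exact mul_nonneg (sub_nonneg.2 (not_le.1 hj).le) (by positivity)
  have h9 := (Finset.sum_eq_zero_iff_of_nonneg h8).1 (le_antisymm h6 (Finset.sum_nonneg h8))
  have h10 : W *ᵥ (V *ᵥ x) = 0 := by
    ext j
    by_cases hj : a ≤ X j
    · exact hw0 j hj
    · have h11 := h9 j (Finset.mem_univ j)
      rcases mul_eq_zero.1 h11 with h12 | h12
      · exact absurd (sub_eq_zero.1 h12).le hj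
      · have : ‖(W *ᵥ (V *ᵥ x)) j‖ = 0 := by
          exact pow_eq_zero_iff (n := 2) (by norm_num) |>.1 h12
        exact norm_eq_zero.1 this
  have h11 : V *ᵥ x = 0 := hWi _ h10
  have h12 : x = 0 := by
    apply nsq_eq_zero
    rw [← hVx, h11]
    unfold nsq
    simp
  ext i
  have h13 := congrFun h12 i.1
  have h14 : x i.1 = ξ i := by
    rw [hx]; show (if hi : a ≤ h i.1 then ξ ⟨i.1, hi⟩ else 0) = ξ i; rw [dif_pos i.2]
  rw [← h14, h13]
  rfl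

/-- Counting of the eigenvalues which are at most `a`. -/
theorem count_le {V W : Matrix ι ι ℂ} (hV : Vᴴ * V = 1) (h X : ι → ℝ) (Xg a : ℝ) (hXg : a ≤ Xg)
    (hWi : ∀ x, W *ᵥ x = 0 → x = 0) (hWc : ∀ x, nsq (W *ᵥ x) ≤ nsq x)
    (hrep : ∀ x, ∑ j, h j * ‖x j‖ ^ 2 =
      ∑ j, X j * ‖(W *ᵥ (V *ᵥ x)) j‖ ^ 2 + Xg * (nsq (V *ᵥ x) - nsq (W *ᵥ (V *ᵥ x)))) :
    (Finset.univ.filter fun i => h i ≤ a).card ≤ (Finset.univ.filter fun j => X j ≤ a).card := by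
  have h1 := count_ge hV (fun i => - h i) (fun j => - X j) (-Xg) (-a) (neg_le_neg hXg) hWi hWc (by
    intro x
    have := hrep x
    simp only [neg_mul, Finset.sum_neg_distrib]
    linarith)
  simpa only [neg_le_neg_iff] using h1

/-- The quadratic form of the ellipse. -/
def Q (c X Y : ℝ) : ℝ := X ^ 2 + Y ^ 2 - 2 * c * X * Y

/-- The operator `s H + i (K - c H)`. -/
noncomputable def TT (c s : ℝ) (H K : Matrix ι ι ℂ) : Matrix ι ι ℂ :=
  (s : ℂ) • H + I • (K - (c : ℂ) • H)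

theorem dot_diag {V H : Matrix ι ι ℂ} {h : ι → ℝ} (hH : H = V * diagonal (fun j => (h j : ℂ)) * Vᴴ)
    (x : ι → ℂ) : star x ⬝ᵥ (H *ᵥ x) = ((∑ j, h j * ‖(Vᴴ *ᵥ x) j‖ ^ 2 : ℝ) : ℂ) := by
  have h1 : H = (Vᴴ)ᴴ * diagonal (fun j => (h j : ℂ)) * Vᴴ := by
    rw [conjTranspose_conjTranspose]; exact hH
  rw [h1, dot_cong]
  push_cast
  rfl

/-- **Four disjoint caps.** -/
theorem four_caps {V1 V2 H K : Matrix ι ι ℂ} {h k : ι → ℝ} (hV1 : V1ᴴ * V1 = 1)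
    (hV2 : V2ᴴ * V2 = 1) (hH : H = V1 * diagonal (fun j => (h j : ℂ)) * V1ᴴ)
    (hK : K = V2 * diagonal (fun j => (k j : ℂ)) * V2ᴴ) {c s δ : ℝ} (hcs : c ^ 2 + s ^ 2 = 1)
    (hs : 0 < s) (hδ : 0 < δ) (hT : ‖TT c s H K‖ < δ) {ap am kp km : ℝ}
    (hpp : ∀ X Y, Q c X Y = δ ^ 2 → ap ≤ X → Y < kp)
    (hpm : ∀ X Y, Q c X Y = δ ^ 2 → ap ≤ X → km < Y)
    (hmp : ∀ X Y, Q c X Y = δ ^ 2 → X ≤ am → Y < kp)
    (hmm : ∀ X Y, Q c X Y = δ ^ 2 → X ≤ am → km < Y)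
    (ha : am < ap) (hk : km < kp) (hreal : s ^ 2 * ap ^ 2 ≤ δ ^ 2 ∨ s ^ 2 * am ^ 2 ≤ δ ^ 2) :
    (Finset.univ.filter fun i => ap ≤ h i).card + (Finset.univ.filter fun i => h i ≤ am).card +
      (Finset.univ.filter fun i => kp ≤ k i).card + (Finset.univ.filter fun i => k i ≤ km).card ≤
      Fintype.card ι := by
  classical
  -- a point of the ellipse outside of the interiors of the caps
  obtain ⟨Xg, Yg, hg, h1, h2, h3, h4⟩ : ∃ Xg Yg, Q c Xg Yg = δ ^ 2 ∧ am ≤ Xg ∧ Xg ≤ ap ∧ km ≤ Yg ∧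
      Yg ≤ kp := by
    have key : ∀ X, s ^ 2 * X ^ 2 ≤ δ ^ 2 →
        Q c X (c * X + Real.sqrt (δ ^ 2 - s ^ 2 * X ^ 2)) = δ ^ 2 := by
      intro X hX
      have h1 := Real.mul_self_sqrt (sub_nonneg.2 hX)
      unfold Q
      have h2 : s ^ 2 = 1 - c ^ 2 := by linarith
      nlinarith
    rcases hreal with hr | hr
    · exact ⟨ap, _, key ap hr, ha.le, le_rfl, (hpm _ _ (key ap hr) le_rfl).le,
        (hpp _ _ (key ap hr) le_rfl).le⟩
    · exact ⟨am, _, key am hr, le_rfl, ha.le, (hmm _ _ (key am hr) le_rfl).le,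
        (hmp _ _ (key am hr) le_rfl).le⟩
  set T : Matrix ι ι ℂ := ((δ⁻¹ : ℝ) : ℂ) • TT c s H K with hTdef
  have hT1 : ‖T‖ < 1 := by
    rw [hTdef, norm_smul, Complex.norm_real, Real.norm_eq_abs, abs_of_pos (inv_pos.2 hδ)]
    calc δ⁻¹ * ‖TT c s H K‖ < δ⁻¹ * δ := mul_lt_mul_of_pos_left hT (inv_pos.2 hδ)
      _ = 1 := inv_mul_cancel₀ hδ.ne'
  set g : ℂ := ⟨s * Xg / δ, (Yg - c * Xg) / δ⟩ with hgdef
  have hg1 : ‖g‖ = 1 := by
    have h5 : ‖g‖ ^ 2 = 1 := by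
      rw [← Complex.normSq_eq_norm_sq, Complex.normSq_apply, hgdef]
      simp only
      have h6 : s * Xg / δ * (s * Xg / δ) + (Yg - c * Xg) / δ * ((Yg - c * Xg) / δ) =
          (s ^ 2 * Xg ^ 2 + (Yg - c * Xg) ^ 2) / δ ^ 2 := by
        field_simp
      rw [h6, div_eq_one_iff_eq (by positivity)]
      unfold Q at hg
      have h2 : s ^ 2 = 1 - c ^ 2 := by linarith
      nlinarith
    nlinarith [norm_nonneg g]
  obtain ⟨W, u, hWi, hu, hWc, hrep⟩ := rep T hT1 g hg1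
  set X : ι → ℝ := fun j => δ * (u j).re / s with hX
  set Y : ι → ℝ := fun j => δ * (u j).im + c * X j with hY
  have hQ : ∀ j, Q c (X j) (Y j) = δ ^ 2 := by
    intro j
    have h5 : (u j).re ^ 2 + (u j).im ^ 2 = 1 := by
      have h6 := hu j
      have h7 : ‖u j‖ ^ 2 = 1 := by rw [h6]; norm_num
      rw [← Complex.normSq_eq_norm_sq, Complex.normSq_apply] at h7
      nlinarith
    have h6 : Q c (X j) (Y j) = s ^ 2 * (X j) ^ 2 + (Y j - c * X j) ^ 2 := by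
      unfold Q
      have h2 : s ^ 2 = 1 - c ^ 2 := by linarith
      rw [h2]
      ring
    rw [h6, hY]
    simp only [add_sub_cancel_right]
    have h7 : s ^ 2 * (X j) ^ 2 = δ ^ 2 * (u j).re ^ 2 := by
      rw [hX]
      simp only
      field_simp
    rw [h7]
    nlinarith
  -- the two real representations
  have hre : ∀ x : ι → ℂ, ((star x ⬝ᵥ (H *ᵥ x)).re = ∑ j, X j * ‖(W *ᵥ x) j‖ ^ 2 +
      Xg * (nsq x - nsq (W *ᵥ x))) ∧ ((star x ⬝ᵥ (K *ᵥ x)).re = ∑ j, Y j * ‖(W *ᵥ x) j‖ ^ 2 +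
      Yg * (nsq x - nsq (W *ᵥ x))) := by
    intro x
    have h5 := hrep x
    have h6 : star x ⬝ᵥ (T *ᵥ x) = ((δ⁻¹ : ℝ) : ℂ) * ((s : ℂ) * (star x ⬝ᵥ (H *ᵥ x)) +
        I * ((star x ⬝ᵥ (K *ᵥ x)) - (c : ℂ) * (star x ⬝ᵥ (H *ᵥ x)))) := by
      rw [hTdef]
      unfold TT
      simp only [smul_mulVec, add_mulVec, sub_mulVec, dotProduct_smul, dotProduct_add,
        dotProduct_sub, smul_eq_mul]
    have hHr : star x ⬝ᵥ (H *ᵥ x) = (((star x ⬝ᵥ (H *ᵥ x)).re : ℝ) : ℂ) := by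
      rw [dot_diag hH, Complex.ofReal_re]
    have hKr : star x ⬝ᵥ (K *ᵥ x) = (((star x ⬝ᵥ (K *ᵥ x)).re : ℝ) : ℂ) := by
      rw [dot_diag hK, Complex.ofReal_re]
    set p : ℝ := (star x ⬝ᵥ (H *ᵥ x)).re with hp
    set r : ℝ := (star x ⬝ᵥ (K *ᵥ x)).re with hr
    rw [hHr, hKr] at h6
    rw [h6] at h5
    have h7 := congrArg Complex.re h5
    have h8 := congrArg Complex.im h5
    simp only [Complex.mul_re, Complex.mul_im, Complex.add_re, Complex.add_im, Complex.sub_re,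
      Complex.sub_im, Complex.ofReal_re, Complex.ofReal_im, Complex.I_re, Complex.I_im,
      Complex.re_sum, Complex.im_sum, zero_mul, mul_zero, sub_zero, zero_sub, add_zero, zero_add,
      one_mul, sub_self, neg_zero] at h7 h8
    have h9 : s * p = δ * ∑ j, (u j).re * ‖(W *ᵥ x) j‖ ^ 2 +
        s * Xg * (nsq x - nsq (W *ᵥ x)) := by
      have := congrArg (fun t => δ * t) h7
      try simp only at this
      rw [← mul_assoc, mul_inv_cancel₀ hδ.ne', one_mul] at this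
      rw [this, hgdef]
      try simp only
      field_simp
    have h10 : r - c * p = δ * ∑ j, (u j).im * ‖(W *ᵥ x) j‖ ^ 2 +
        (Yg - c * Xg) * (nsq x - nsq (W *ᵥ x)) := by
      have := congrArg (fun t => δ * t) h8
      try simp only at this
      rw [← mul_assoc, mul_inv_cancel₀ hδ.ne', one_mul] at this
      rw [this, hgdef]
      try simp only
      field_simp
    have h11 : p = ∑ j, X j * ‖(W *ᵥ x) j‖ ^ 2 + Xg * (nsq x - nsq (W *ᵥ x)) := by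
      have h12 : ∑ j, X j * ‖(W *ᵥ x) j‖ ^ 2 = (δ * ∑ j, (u j).re * ‖(W *ᵥ x) j‖ ^ 2) / s := by
        rw [Finset.mul_sum, Finset.sum_div]
        refine Finset.sum_congr rfl fun j _ => ?_
        rw [hX]
        simp only
        ring
      rw [h12]
      field_simp
      linarith
    refine ⟨h11, ?_⟩
    have h13 : ∑ j, Y j * ‖(W *ᵥ x) j‖ ^ 2 = δ * ∑ j, (u j).im * ‖(W *ᵥ x) j‖ ^ 2 +
        c * ∑ j, X j * ‖(W *ᵥ x) j‖ ^ 2 := by
      rw [Finset.mul_sum, Finset.mul_sum, ← Finset.sum_add_distrib]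
      refine Finset.sum_congr rfl fun j _ => ?_
      rw [hY]
      simp only
      ring
    rw [h13]
    have h14 : c * p = c * (∑ j, X j * ‖(W *ᵥ x) j‖ ^ 2) +
        c * (Xg * (nsq x - nsq (W *ᵥ x))) := by
      conv_lhs => rw [h11]
      ring
    linarith
  have hrepH : ∀ x : ι → ℂ, ∑ j, h j * ‖x j‖ ^ 2 = ∑ j, X j * ‖(W *ᵥ (V1 *ᵥ x)) j‖ ^ 2 +
      Xg * (nsq (V1 *ᵥ x) - nsq (W *ᵥ (V1 *ᵥ x))) := by
    intro x
    rw [← (hre (V1 *ᵥ x)).1, dot_diag hH, Complex.ofReal_re, mulVec_mulVec, hV1, one_mulVec]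
  have hrepK : ∀ x : ι → ℂ, ∑ j, k j * ‖x j‖ ^ 2 = ∑ j, Y j * ‖(W *ᵥ (V2 *ᵥ x)) j‖ ^ 2 +
      Yg * (nsq (V2 *ᵥ x) - nsq (W *ᵥ (V2 *ᵥ x))) := by
    intro x
    rw [← (hre (V2 *ᵥ x)).2, dot_diag hK, Complex.ofReal_re, mulVec_mulVec, hV2, one_mulVec]
  have c1 := count_ge hV1 h X Xg ap h2 hWi hWc hrepH
  have c2 := count_le hV1 h X Xg am h1 hWi hWc hrepH
  have c3 := count_ge hV2 k Y Yg kp h4 hWi hWc hrepK
  have c4 := count_le hV2 k Y Yg km h3 hWi hWc hrepK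
  have hd : (Finset.univ.filter fun j => ap ≤ X j).card + (Finset.univ.filter fun j => X j ≤ am).card +
      (Finset.univ.filter fun j => kp ≤ Y j).card + (Finset.univ.filter fun j => Y j ≤ km).card ≤
      Fintype.card ι := by
    rw [Finset.card_filter, Finset.card_filter, Finset.card_filter, Finset.card_filter,
      ← Finset.sum_add_distrib, ← Finset.sum_add_distrib, ← Finset.sum_add_distrib,
      Fintype.card, Finset.card_eq_sum_ones]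
    refine Finset.sum_le_sum fun j _ => ?_
    have e := hQ j
    have e1 := hpp _ _ e
    have e2 := hpm _ _ e
    have e3 := hmp _ _ e
    have e4 := hmm _ _ e
    by_cases f1 : ap ≤ X j
    · have f2 : ¬ X j ≤ am := by linarith
      have f3 : ¬ kp ≤ Y j := not_le.2 (e1 f1)
      have f4 : ¬ Y j ≤ km := not_le.2 (e2 f1)
      simp [f1, f2, f3, f4]
    · by_cases f2 : X j ≤ am
      · have f3 : ¬ kp ≤ Y j := not_le.2 (e3 f2)
        have f4 : ¬ Y j ≤ km := not_le.2 (e4 f2)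
        simp [f1, f2, f3, f4]
      · by_cases f3 : kp ≤ Y j
        · have f4 : ¬ Y j ≤ km := by linarith
          simp [f1, f2, f3, f4]
        · by_cases f4 : Y j ≤ km <;> simp [f1, f2, f3, f4]
  omega

/-- The eigenvalues of `H` satisfy `s |h| ≤ δ`. -/
theorem eig_bound {V1 V2 H K : Matrix ι ι ℂ} {h k : ι → ℝ} (hV1 : V1ᴴ * V1 = 1)
    (hH : H = V1 * diagonal (fun j => (h j : ℂ)) * V1ᴴ)
    (hK : K = V2 * diagonal (fun j => (k j : ℂ)) * V2ᴴ) {c s δ : ℝ}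
    (hs : 0 < s) (hT : ‖TT c s H K‖ ≤ δ) (i : ι) : s * |h i| ≤ δ := by
  set x : ι → ℂ := V1 *ᵥ (Pi.single i 1) with hx
  have h1 : nsq x = 1 := by
    rw [hx, nsq_unitary hV1]
    unfold nsq
    rw [Finset.sum_eq_single i]
    · simp
    · intro j _ hj
      simp [Pi.single_eq_of_ne hj]
    · simp
  have h2 : star x ⬝ᵥ (H *ᵥ x) = ((h i : ℝ) : ℂ) := by
    rw [dot_diag hH, hx, mulVec_mulVec, hV1, one_mulVec]
    congr 1
    rw [Finset.sum_eq_single i]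
    · simp
    · intro j _ hj
      simp [Pi.single_eq_of_ne hj]
    · simp
  have h3 : star x ⬝ᵥ (K *ᵥ x) = (((star x ⬝ᵥ (K *ᵥ x)).re : ℝ) : ℂ) := by
    rw [dot_diag hK, Complex.ofReal_re]
  have h4 : star x ⬝ᵥ (TT c s H K *ᵥ x) = (s : ℂ) * (h i : ℂ) +
      I * ((((star x ⬝ᵥ (K *ᵥ x)).re : ℝ) : ℂ) - (c : ℂ) * (h i : ℂ)) := by
    unfold TT
    simp only [smul_mulVec, add_mulVec, sub_mulVec, dotProduct_smul, dotProduct_add,
      dotProduct_sub, smul_eq_mul]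
    rw [h2, ← h3]
  have h5 := norm_dot_le (TT c s H K) x
  rw [h1, mul_one] at h5
  have h6 := Complex.abs_re_le_norm (star x ⬝ᵥ (TT c s H K *ᵥ x))
  have h7 : (star x ⬝ᵥ (TT c s H K *ᵥ x)).re = s * h i := by
    rw [h4]
    simp
  rw [h7, abs_mul, abs_of_pos hs] at h6
  linarith

end Pool.Agent.K4H34.NM
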