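import Pool.Agent.K4H34.NM.Hall

/-!
# Normal matrices with spectra on two lines
-/

set_option autoImplicit false
set_option linter.all false

open Matrix Complex Polynomial
open scoped Matrix.Norms.L2Operator

namespace Pool.Agent.K4H34.NM

theorem exists_perm {n : ℕ} {R : Type} [DecidableEq R] (f g : Fin n → R)
    (h : Multiset.map f Finset.univ.val = Multiset.map g Finset.univ.val) :
    ∃ τ : Equiv.Perm (Fin n), ∀ i, f i = g (τ i) := by
  have hcard : ∀ y : R, Fintype.card {i // f i = y} = Fintype.card {i // g i = y} := by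
    intro y
    have h1 := congrArg (Multiset.count y) h
    rw [Multiset.count_map, Multiset.count_map] at h1
    rw [Fintype.card_subtype, Fintype.card_subtype]
    have h2 : ∀ f : Fin n → R, (Finset.univ.filter fun i => f i = y).card =
        (Multiset.filter (fun a => y = f a) Finset.univ.val).card := by
      intro f
      rw [Finset.card_def, Finset.filter_val]
      congr 1
      refine Multiset.filter_congr fun i _ => ?_
      exact eq_comm
    rw [h2, h2, h1]
  have e : ∀ y : R, {i // f i = y} ≃ {i // g i = y} := fun y => Fintype.equivOfCardEq (hcard y)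
  refine ⟨(Equiv.sigmaFiberEquiv f).symm.trans ((Equiv.sigmaCongrRight e).trans
    (Equiv.sigmaFiberEquiv g)), fun i => ?_⟩
  show f i = g ((e (f i)) ⟨i, rfl⟩).1
  exact (((e (f i)) ⟨i, rfl⟩).2).symm

theorem normal_line {n : ℕ} {A : Matrix (Fin n) (Fin n) ℂ} (hA : IsStarNormal A) {α : Fin n → ℂ}
    (hα : A.charpoly = ∏ i, (X - C (α i))) {z w : ℂ} (hw : ‖w‖ = 1) {t : Fin n → ℝ}
    (ht : ∀ i, α i = z + w * t i) :
    ∃ (V : Matrix (Fin n) (Fin n) ℂ) (h : Fin n → ℝ) (τ : Equiv.Perm (Fin n)), Vᴴ * V = 1 ∧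
      V * Vᴴ = 1 ∧ A = z • (1 : Matrix (Fin n) (Fin n) ℂ) +
        w • (V * diagonal (fun j => (h j : ℂ)) * Vᴴ) ∧ ∀ i, α i = z + w * h (τ i) := by
  have hww : w * star w = 1 := by
    rw [Complex.star_def, Complex.mul_conj, Complex.normSq_eq_norm_sq, hw]
    simp
  have hw0 : w ≠ 0 := fun h => by rw [h] at hw; simp at hw
  set H : Matrix (Fin n) (Fin n) ℂ := star w • (A - z • 1) with hH
  have hAH : A = z • (1 : Matrix (Fin n) (Fin n) ℂ) + w • H := by
    rw [hH, smul_smul, hww, one_smul]
    abel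
  have hnormal : IsStarNormal H := by
    constructor
    have h1 : star A * A = A * star A := hA.star_comm_self
    show star H * H = H * star H
    rw [hH, star_smul, star_sub, star_smul, star_one, star_star]
    simp only [smul_mul_assoc, mul_smul_comm, sub_mul, mul_sub, h1, one_mul, mul_one]
    module
  have hspec : ∀ x ∈ spectrum ℂ H, x = x.re := by
    intro x hx
    have h1 : z + w * x ∈ spectrum ℂ A := by
      rw [spectrum.mem_iff] at hx ⊢
      intro hu
      apply hx
      have h2 : algebraMap ℂ (Matrix (Fin n) (Fin n) ℂ) x - H =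
          (star w) • (algebraMap ℂ (Matrix (Fin n) (Fin n) ℂ) (z + w * x) - A) := by
        rw [hH, Algebra.algebraMap_eq_smul_one, Algebra.algebraMap_eq_smul_one, add_smul,
          mul_smul, smul_sub, smul_sub, smul_add, smul_smul (star w) w, mul_comm (star w) w, hww,
          one_smul]
        abel
      rw [h2]
      have h3 : IsUnit (star w) := (IsUnit.mk0 w hw0).star
      obtain ⟨v, hv⟩ := h3
      rw [← hv]
      exact hu.smul v
    rw [Matrix.mem_spectrum_iff_isRoot_charpoly, hα, Polynomial.IsRoot.def,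
      Polynomial.eval_prod, Finset.prod_eq_zero_iff] at h1
    obtain ⟨i, _, hi⟩ := h1
    rw [Polynomial.eval_sub, Polynomial.eval_X, Polynomial.eval_C, ht i] at hi
    have h4 : w * x = w * (t i : ℂ) := by linear_combination hi
    have h5 : x = (t i : ℂ) := mul_left_cancel₀ hw0 h4
    rw [h5]
    simp
  have hherm : H.IsHermitian := by
    have h1 : IsSelfAdjoint H := by
      rw [isSelfAdjoint_iff_isStarNormal_and_quasispectrumRestricts,
        quasispectrumRestricts_iff_spectrumRestricts]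
      exact ⟨hnormal, SpectrumRestricts.real_iff.2 hspec⟩
    exact h1
  obtain ⟨V, hV1, hV2, hVH⟩ := herm_diag hherm
  have hA2 : A = V * diagonal (fun j => z + w * (hherm.eigenvalues j : ℂ)) * Vᴴ := by
    have h1 : (diagonal (fun j => z + w * (hherm.eigenvalues j : ℂ)) :
        Matrix (Fin n) (Fin n) ℂ) = z • 1 + w • diagonal (fun j => (hherm.eigenvalues j : ℂ)) := by
      rw [← diagonal_one, ← diagonal_smul, ← diagonal_smul, diagonal_add]
      congr 1
      ext j
      simp
    rw [h1, Matrix.mul_add, Matrix.add_mul, Matrix.mul_smul, Matrix.mul_one, Matrix.smul_mul,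
      hV2, Matrix.mul_smul, Matrix.smul_mul, ← hVH]
    exact hAH
  have hchar : A.charpoly = ∏ i, (X - C (z + w * (hherm.eigenvalues i : ℂ))) := by
    conv_lhs => rw [hA2, Matrix.mul_assoc, charpoly_mul_comm, Matrix.mul_assoc, hV1,
      Matrix.mul_one, charpoly_diagonal]
  have hms : Multiset.map α Finset.univ.val =
      Multiset.map (fun i => z + w * (hherm.eigenvalues i : ℂ)) Finset.univ.val := by
    have h1 : ∀ f : Fin n → ℂ, (∏ i, (X - C (f i))).roots = Multiset.map f Finset.univ.val := by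
      intro f
      have h2 : ∏ i, (X - C (f i)) =
          (Multiset.map (fun a => X - C a) (Multiset.map f Finset.univ.val)).prod := by
        rw [Multiset.map_map]
        rfl
      rw [h2, Polynomial.roots_multiset_prod_X_sub_C]
    rw [← h1, ← h1, ← hα, ← hchar]
  obtain ⟨τ, hτ⟩ := exists_perm _ _ hms
  exact ⟨V, hherm.eigenvalues, τ, hV1, hV2, by rw [← hVH]; exact hAH, hτ⟩

/-- **Normal matrices with spectra on two lines which are not parallel.** -/
theorem lines {n : ℕ} {A B : Matrix (Fin n) (Fin n) ℂ} (hA : IsStarNormal A) (hB : IsStarNormal B)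
    {α β : Fin n → ℂ} (hα : A.charpoly = ∏ i, (X - C (α i))) (hβ : B.charpoly = ∏ i, (X - C (β i)))
    {z u v : ℂ} (huv : LinearIndependent ℝ ![u, v]) {s t : Fin n → ℝ}
    (hs : ∀ i, α i = z + s i * u) (ht : ∀ i, β i = z + t i * v) :
    ∃ σ : Equiv.Perm (Fin n), ∀ i, ‖α i - β (σ i)‖ ≤ ‖A - B‖ := by
  classical
  have hu0 : u ≠ 0 := by
    have := huv.ne_zero 0
    simpa using this
  have hv0 : v ≠ 0 := by
    have := huv.ne_zero 1
    simpa using this
  have hun : (0 : ℝ) < ‖u‖ := norm_pos_iff.2 hu0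
  have hvn : (0 : ℝ) < ‖v‖ := norm_pos_iff.2 hv0
  set w1 : ℂ := u / (‖u‖ : ℂ) with hw1
  set w2 : ℂ := v / (‖v‖ : ℂ) with hw2
  have hw1n : ‖w1‖ = 1 := by
    rw [hw1, norm_div, Complex.norm_real, norm_norm, div_self hun.ne']
  have hw2n : ‖w2‖ = 1 := by
    rw [hw2, norm_div, Complex.norm_real, norm_norm, div_self hvn.ne']
  have hu' : u = (‖u‖ : ℂ) * w1 := by
    rw [hw1, mul_div_cancel₀]
    exact_mod_cast hun.ne'
  have hv' : v = (‖v‖ : ℂ) * w2 := by
    rw [hw2, mul_div_cancel₀]
    exact_mod_cast hvn.ne'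
  obtain ⟨V1, h, τ1, hV1, hV1', hA', hα'⟩ := normal_line hA hα (z := z) hw1n
    (t := fun i => s i * ‖u‖) (fun i => by
      rw [hs i]
      conv_lhs => rw [hu']
      push_cast
      ring)
  obtain ⟨V2, k, τ2, hV2, hV2', hB', hβ'⟩ := normal_line hB hβ (z := z) hw2n
    (t := fun i => t i * ‖v‖) (fun i => by
      rw [ht i]
      conv_lhs => rw [hv']
      push_cast
      ring)
  set H : Matrix (Fin n) (Fin n) ℂ := V1 * diagonal (fun j => (h j : ℂ)) * V1ᴴ with hH
  set K : Matrix (Fin n) (Fin n) ℂ := V2 * diagonal (fun j => (k j : ℂ)) * V2ᴴ with hK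
  have hHh : Hᴴ = H := by
    rw [hH, conjTranspose_mul, conjTranspose_mul, conjTranspose_conjTranspose,
      diagonal_conjTranspose, Matrix.mul_assoc]
    congr 3
    ext j
    simp
  have hKh : Kᴴ = K := by
    rw [hK, conjTranspose_mul, conjTranspose_mul, conjTranspose_conjTranspose,
      diagonal_conjTranspose, Matrix.mul_assoc]
    congr 3
    ext j
    simp
  -- the angle
  set e : ℂ := star w1 * w2 with he
  have hw1s : w1 * star w1 = 1 := by
    rw [Complex.star_def, Complex.mul_conj, Complex.normSq_eq_norm_sq, hw1n]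
    simp
  have hen : ‖e‖ = 1 := by rw [he, norm_mul, norm_star, hw1n, hw2n, one_mul]
  have hw2e : w2 = w1 * e := by rw [he, ← mul_assoc, hw1s, one_mul]
  set c : ℝ := e.re with hc
  set s0 : ℝ := |e.im| with hs0
  have hcs : c ^ 2 + s0 ^ 2 = 1 := by
    have h1 : ‖e‖ ^ 2 = 1 := by rw [hen]; norm_num
    rw [← Complex.normSq_eq_norm_sq, Complex.normSq_apply] at h1
    rw [hs0, sq_abs]
    nlinarith
  have him : e.im ≠ 0 := by
    intro h0
    have he' : e = (c : ℂ) := by
      apply Complex.ext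
      · simp [hc]
      · simp [h0]
    have hv'' : v = ((‖v‖ * c / ‖u‖ : ℝ) : ℂ) * u := by
      have h1 : (‖u‖ : ℂ) ≠ 0 := by exact_mod_cast hun.ne'
      calc v = (‖v‖ : ℂ) * w2 := hv'
        _ = (‖v‖ : ℂ) * (w1 * (c : ℂ)) := by rw [hw2e, he']
        _ = ((‖v‖ * c / ‖u‖ : ℝ) : ℂ) * ((‖u‖ : ℂ) * w1) := by
          push_cast
          field_simp
        _ = _ := by rw [← hu']
    obtain ⟨r, hr⟩ : ∃ r : ℝ, v = (r : ℂ) * u := ⟨_, hv''⟩
    have h2 := LinearIndependent.pair_iff.1 huv r (-1) (by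
      rw [Complex.real_smul, Complex.real_smul, hr]
      push_cast
      ring)
    norm_num at h2
  have hs0p : 0 < s0 := abs_pos.2 him
  -- the distances
  have hdist : ∀ a b : ℝ, ‖(z + w1 * a) - (z + w2 * b)‖ ^ 2 = Q c a b := by
    intro a b
    have h1 : (z + w1 * a) - (z + w2 * b) = w1 * ((a : ℂ) - e * b) := by rw [hw2e]; ring
    rw [h1, norm_mul, hw1n, one_mul, ← Complex.normSq_eq_norm_sq, Complex.normSq_apply]
    have h2 : e.re ^ 2 + e.im ^ 2 = 1 := by
      have := hcs
      rw [hs0, sq_abs] at this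
      exact this
    simp only [Complex.sub_re, Complex.sub_im, Complex.mul_re, Complex.mul_im, Complex.ofReal_re,
      Complex.ofReal_im, mul_zero, sub_zero, zero_add, zero_sub, add_zero]
    unfold Q
    rw [hc]
    nlinarith
  -- the norm
  have hnorm : ‖TT c s0 H K‖ = ‖A - B‖ := by
    have h1 : A - B = w1 • (H - e • K) := by
      rw [hA', hB', hw2e, smul_sub, smul_smul]
      abel
    have h2 : ‖A - B‖ = ‖H - e • K‖ := by rw [h1, norm_smul, hw1n, one_mul]
    have hee : star e * e = 1 := by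
      rw [Complex.star_def, ← Complex.normSq_eq_conj_mul_self, Complex.normSq_eq_norm_sq, hen]
      simp
    have h3 : ‖K - star e • H‖ = ‖H - e • K‖ := by
      have h4 : K - star e • H = -(star e) • (H - e • K) := by
        rw [smul_sub, smul_smul, neg_mul, hee]
        module
      rw [h4, norm_smul, norm_neg, norm_star, hen, one_mul]
    have h4 : ‖K - e • H‖ = ‖H - e • K‖ := by
      have h5 : K - e • H = (K - star e • H)ᴴ := by
        rw [conjTranspose_sub, conjTranspose_smul, hKh, hHh, star_star]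
      rw [h5, l2_opNorm_conjTranspose, h3]
    have h5 : ∀ s : ℝ, TT c s H K = I • (K - ((c : ℂ) + I * (s : ℂ)) • H) := by
      intro s
      unfold TT
      rw [smul_sub, smul_sub, smul_smul, smul_smul]
      have : I * ((c : ℂ) + I * (s : ℂ)) = I * (c : ℂ) - (s : ℂ) := by
        rw [mul_add, ← mul_assoc, Complex.I_mul_I]
        ring
      rw [this]
      module
    rw [h5, norm_smul, Complex.norm_I, one_mul, h2]
    rcases abs_cases e.im with ⟨h6, _⟩ | ⟨h6, _⟩
    · have h7 : (c : ℂ) + I * (s0 : ℂ) = e := by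
        rw [hs0, h6]
        apply Complex.ext <;> simp [hc]
      rw [h7, h4]
    · have h7 : (c : ℂ) + I * (s0 : ℂ) = star e := by
        rw [hs0, h6]
        apply Complex.ext <;> simp [hc]
      rw [h7, h3]
  -- all `δ > ‖A - B‖`
  have hmain : ∀ δ : ℝ, ‖A - B‖ < δ → ∃ σ : Equiv.Perm (Fin n), ∀ i, ‖α i - β (σ i)‖ ≤ δ := by
    intro δ hδ
    obtain ⟨f, hf1, hf2⟩ := matching hV1 hV2 hH hK hcs hs0p (by rw [hnorm]; exact hδ)
    have hδ0 : 0 ≤ δ := (norm_nonneg _).trans hδ.le
    set F : Equiv.Perm (Fin n) := Equiv.ofBijective f (Finite.injective_iff_bijective.1 hf1) with hF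
    refine ⟨τ1.trans (F.trans τ2.symm), fun i => ?_⟩
    have h1 : β ((τ1.trans (F.trans τ2.symm)) i) = z + w2 * k (f (τ1 i)) := by
      rw [hβ']
      simp [hF]
    rw [h1, hα' i]
    have h2 := hf2 (τ1 i)
    rw [← hdist] at h2
    exact le_of_sq_le_sq h2 hδ0
  -- the minimum over the permutations
  by_contra hcon
  push Not at hcon
  choose κ hκ using hcon
  obtain ⟨σ0, _, hσ0⟩ := Finset.exists_min_image (Finset.univ : Finset (Equiv.Perm (Fin n)))
    (fun σ => ‖α (κ σ) - β (σ (κ σ))‖) Finset.univ_nonempty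
  have h1 := hκ σ0
  obtain ⟨δ, hδ1, hδ2⟩ := exists_between h1
  obtain ⟨σ, hσ⟩ := hmain δ hδ1
  have h2 := hσ (κ σ)
  have h3 := hσ0 σ (Finset.mem_univ _)
  linarith

end Pool.Agent.K4H34.NM
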