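import Pool.Agent.K4H34.NM.Count

/-!
# The marriage condition
-/

set_option autoImplicit false
set_option linter.all false

open Matrix Complex
open scoped Matrix.Norms.L2Operator ComplexOrder

namespace Pool.Agent.K4H34.NM

/-- A quadrant with its vertex outside of the ellipse, on the side of the outer normal. -/
theorem quad {c s x y X Y δ : ℝ} (hcs : c ^ 2 + s ^ 2 = 1) (hQ : δ ^ 2 < Q c x y)
    (h1 : 0 ≤ (x - c * y) * (X - x)) (h2 : 0 ≤ (y - c * x) * (Y - y)) : δ ^ 2 < Q c X Y := by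
  have h3 : Q c x y * Q c X Y - ((x - c * y) * X + (y - c * x) * Y) ^ 2 =
      s ^ 2 * (x * Y - y * X) ^ 2 := by
    have : s ^ 2 = 1 - c ^ 2 := by linarith
    rw [this]
    unfold Q
    ring
  have h4 : (x - c * y) * X + (y - c * x) * Y = Q c x y + (x - c * y) * (X - x) +
      (y - c * x) * (Y - y) := by
    unfold Q
    ring
  have h5 : Q c x y ≤ (x - c * y) * X + (y - c * x) * Y := by rw [h4]; linarith
  have h6 : 0 < Q c x y := lt_of_le_of_lt (by positivity) hQ
  have h7 : (Q c x y) ^ 2 ≤ ((x - c * y) * X + (y - c * x) * Y) ^ 2 :=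
    pow_le_pow_left₀ h6.le h5 2
  have h8 : 0 ≤ s ^ 2 * (x * Y - y * X) ^ 2 := by positivity
  have h9 : Q c x y * Q c x y ≤ Q c x y * Q c X Y := by nlinarith
  have h10 := le_of_mul_le_mul_left h9 h6
  linarith

theorem Q_X {c s X Y δ : ℝ} (hcs : c ^ 2 + s ^ 2 = 1) (hQ : Q c X Y = δ ^ 2) :
    s ^ 2 * X ^ 2 ≤ δ ^ 2 := by
  have h1 : Q c X Y = s ^ 2 * X ^ 2 + (Y - c * X) ^ 2 := by
    have : s ^ 2 = 1 - c ^ 2 := by linarith
    rw [this]; unfold Q; ring
  nlinarith [sq_nonneg (Y - c * X)]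

theorem Q_Y {c s X Y δ : ℝ} (hcs : c ^ 2 + s ^ 2 = 1) (hQ : Q c X Y = δ ^ 2) :
    s ^ 2 * Y ^ 2 ≤ δ ^ 2 := by
  have h1 : Q c X Y = s ^ 2 * Y ^ 2 + (X - c * Y) ^ 2 := by
    have : s ^ 2 = 1 - c ^ 2 := by linarith
    rw [this]; unfold Q; ring
  nlinarith [sq_nonneg (X - c * Y)]

theorem abs_le_of_sq {s X δ : ℝ} (hs : 0 < s) (hδ : 0 < δ) (h : s ^ 2 * X ^ 2 ≤ δ ^ 2) :
    |X| ≤ δ / s := by
  rw [le_div_iff₀ hs]
  have h1 : (|X| * s) ^ 2 ≤ δ ^ 2 := by rw [mul_pow, sq_abs]; linarith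
  exact abs_le_of_sq_le_sq' (a := |X| * s) (b := δ) h1 hδ.le |>.2

theorem sq_le_of_abs {s X δ : ℝ} (hs : 0 < s) (h : |X| ≤ δ / s) : s ^ 2 * X ^ 2 ≤ δ ^ 2 := by
  rw [le_div_iff₀ hs] at h
  have h1 : (|X| * s) ^ 2 ≤ δ ^ 2 := pow_le_pow_left₀ (by positivity) h 2
  rw [mul_pow, sq_abs] at h1
  linarith

variable {ι : Type} [Fintype ι] [DecidableEq ι]

/-- The property of the eigenvalues proved in `four_caps`. -/
def FourCaps (c s δ : ℝ) (h k : ι → ℝ) : Prop :=
  ∀ ap am kp km : ℝ, (∀ X Y, Q c X Y = δ ^ 2 → ap ≤ X → Y < kp) →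
    (∀ X Y, Q c X Y = δ ^ 2 → ap ≤ X → km < Y) →
    (∀ X Y, Q c X Y = δ ^ 2 → X ≤ am → Y < kp) →
    (∀ X Y, Q c X Y = δ ^ 2 → X ≤ am → km < Y) → am < ap → km < kp →
    (s ^ 2 * ap ^ 2 ≤ δ ^ 2 ∨ s ^ 2 * am ^ 2 ≤ δ ^ 2) →
    (Finset.univ.filter fun i => ap ≤ h i).card + (Finset.univ.filter fun i => h i ≤ am).card +
      (Finset.univ.filter fun i => kp ≤ k i).card + (Finset.univ.filter fun i => k i ≤ km).card ≤
      Fintype.card ι

/-- The core: if `S` (indices of `h`) and `J` (indices of `k`) are not adjacent, and `J` is the union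
of a part above and a part below, then `#S + #J ≤ n`. -/
theorem core {c s δ : ℝ} (hcs : c ^ 2 + s ^ 2 = 1) (hc : 0 ≤ c) (hs : 0 < s) (hδ : 0 < δ)
    {h k : ι → ℝ} (hfour : FourCaps c s δ h k) (hb : ∀ i, |h i| ≤ δ / s)
    (S J1 J2 : Finset ι) (hS : S.Nonempty)
    (h1 : ∀ j ∈ J1, ∀ i ∈ S, δ ^ 2 < Q c (h i) (k j) ∧ 0 ≤ k j - c * h i)
    (h2 : ∀ j ∈ J2, ∀ i ∈ S, δ ^ 2 < Q c (h i) (k j) ∧ k j - c * h i < 0) :
    S.card + (J1.card + J2.card) ≤ Fintype.card ι := by
  classical
  set r : ℝ := δ / s with hr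
  have hr0 : 0 < r := div_pos hδ hs
  have hrs : s * r = δ := by rw [hr]; field_simp
  have hc1 : c ≤ 1 := by nlinarith [sq_nonneg s]
  have hb' : ∀ i, -r ≤ h i ∧ h i ≤ r := fun i => abs_le.1 (hb i)
  have hch : ∀ i, -r ≤ c * h i ∧ c * h i ≤ r := fun i => by
    have := hb' i
    constructor <;> nlinarith
  have hQbig : ∀ x : ℝ, δ ^ 2 < Q c x (2 * r) := by
    intro x
    have h3 : Q c x (2 * r) = 4 * (s * r) ^ 2 + (x - c * (2 * r)) ^ 2 := by
      have : s ^ 2 = 1 - c ^ 2 := by linarith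
      rw [mul_pow, this]; unfold Q; ring
    rw [h3, hrs]
    nlinarith [sq_nonneg (x - c * (2 * r))]
  have hQbig' : ∀ x : ℝ, δ ^ 2 < Q c x (-(2 * r)) := by
    intro x
    have h3 : Q c x (-(2 * r)) = 4 * (s * r) ^ 2 + (x + c * (2 * r)) ^ 2 := by
      have : s ^ 2 = 1 - c ^ 2 := by linarith
      rw [mul_pow, this]; unfold Q; ring
    rw [h3, hrs]
    nlinarith [sq_nonneg (x + c * (2 * r))]
  have hXr : ∀ X Y, Q c X Y = δ ^ 2 → -r ≤ X ∧ X ≤ r := fun X Y hQ =>
    abs_le.1 (abs_le_of_sq hs hδ (Q_X hcs hQ))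
  have hYr : ∀ X Y, Q c X Y = δ ^ 2 → -r ≤ Y ∧ Y ≤ r := fun X Y hQ =>
    abs_le.1 (abs_le_of_sq hs hδ (Q_Y hcs hQ))
  obtain ⟨i0, hi0⟩ := hS
  -- the threshold `k1`
  obtain ⟨k1, hk1a, hk1b⟩ : ∃ k1 : ℝ, (∀ j ∈ J1, k1 ≤ k j) ∧
      ∀ i ∈ S, δ ^ 2 < Q c (h i) k1 ∧ 0 ≤ k1 - c * h i := by
    have hne : (insert (2 * r) (J1.image k)).Nonempty := Finset.insert_nonempty _ _
    refine ⟨(insert (2 * r) (J1.image k)).min' hne, fun j hj => Finset.min'_le _ _ (by
      exact Finset.mem_insert_of_mem (Finset.mem_image_of_mem k hj)), ?_⟩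
    have hmem := Finset.min'_mem _ hne
    rcases Finset.mem_insert.1 hmem with h3 | h3
    · rw [h3]
      intro i hi
      exact ⟨hQbig _, by linarith [(hch i).2]⟩
    · obtain ⟨j, hj, h4⟩ := Finset.mem_image.1 h3
      rw [← h4]
      exact h1 j hj
  obtain ⟨k2, hk2a, hk2b⟩ : ∃ k2 : ℝ, (∀ j ∈ J2, k j ≤ k2) ∧
      ∀ i ∈ S, δ ^ 2 < Q c (h i) k2 ∧ k2 - c * h i < 0 := by
    have hne : (insert (-(2 * r)) (J2.image k)).Nonempty := Finset.insert_nonempty _ _
    refine ⟨(insert (-(2 * r)) (J2.image k)).max' hne, fun j hj => Finset.le_max' _ _ (by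
      exact Finset.mem_insert_of_mem (Finset.mem_image_of_mem k hj)), ?_⟩
    have hmem := Finset.max'_mem _ hne
    rcases Finset.mem_insert.1 hmem with h3 | h3
    · rw [h3]
      intro i hi
      exact ⟨hQbig' _, by linarith [(hch i).1]⟩
    · obtain ⟨j, hj, h4⟩ := Finset.mem_image.1 h3
      rw [← h4]
      exact h2 j hj
  have hk12 : k2 < k1 := by
    have := (hk1b i0 hi0).2
    have := (hk2b i0 hi0).2
    linarith
  have hck : c * k2 ≤ c * k1 := mul_le_mul_of_nonneg_left hk12.le hc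
  -- the parts of `S`
  set S1 := S.filter fun i => c * k1 ≤ h i with hS1
  set S3 := S.filter fun i => h i < c * k2 with hS3
  set S2 := S.filter fun i => c * k2 ≤ h i ∧ h i < c * k1 with hS2
  have hcard : S.card ≤ S1.card + S2.card + S3.card := by
    have h3 : S ⊆ S1 ∪ S2 ∪ S3 := by
      intro i hi
      rw [Finset.mem_union, Finset.mem_union, hS1, hS2, hS3, Finset.mem_filter, Finset.mem_filter,
        Finset.mem_filter]
      by_cases h4 : c * k1 ≤ h i
      · exact Or.inl (Or.inl ⟨hi, h4⟩)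
      · by_cases h5 : h i < c * k2
        · exact Or.inr ⟨hi, h5⟩
        · exact Or.inl (Or.inr ⟨hi, not_lt.1 h5, not_le.1 h4⟩)
    calc S.card ≤ (S1 ∪ S2 ∪ S3).card := Finset.card_le_card h3
      _ ≤ (S1 ∪ S2).card + S3.card := Finset.card_union_le _ _
      _ ≤ _ := Nat.add_le_add_right (Finset.card_union_le _ _) _
  -- the threshold `ap`
  obtain ⟨ap, hapa, hapb, hapc⟩ : ∃ ap : ℝ, (∀ i ∈ S1, ap ≤ h i) ∧
      (∀ X Y, Q c X Y = δ ^ 2 → ap ≤ X → Y < k1 ∧ k2 < Y) ∧ (c * k1 ≤ ap ∧ -r ≤ ap ∨ ap = 2 * r) := by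
    have hne : (insert (2 * r) (S1.image h)).Nonempty := Finset.insert_nonempty _ _
    refine ⟨(insert (2 * r) (S1.image h)).min' hne, fun j hj => Finset.min'_le _ _ (by
      exact Finset.mem_insert_of_mem (Finset.mem_image_of_mem h hj)), ?_⟩
    have hmem := Finset.min'_mem _ hne
    rcases Finset.mem_insert.1 hmem with h3 | h3
    · rw [h3]
      refine ⟨fun X Y hQ hX => ?_, Or.inr rfl⟩
      have := (hXr X Y hQ).2
      linarith
    · obtain ⟨i, hi, h4⟩ := Finset.mem_image.1 h3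
      rw [← h4]
      obtain ⟨hiS, hi1⟩ := Finset.mem_filter.1 hi
      refine ⟨fun X Y hQ hX => ⟨?_, ?_⟩, Or.inl ⟨hi1, (hb' i).1⟩⟩
      · by_contra hY
        have := quad hcs (hk1b i hiS).1 (X := X) (Y := Y)
          (mul_nonneg (by linarith) (by linarith))
          (mul_nonneg (hk1b i hiS).2 (by linarith [not_lt.1 hY]))
        linarith
      · by_contra hY
        have := quad hcs (hk2b i hiS).1 (X := X) (Y := Y)
          (mul_nonneg (by linarith) (by linarith))
          (mul_nonneg_of_nonpos_of_nonpos (hk2b i hiS).2.le (by linarith [not_lt.1 hY]))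
        linarith
  obtain ⟨am, hama, hamb, hamc⟩ : ∃ am : ℝ, (∀ i ∈ S3, h i ≤ am) ∧
      (∀ X Y, Q c X Y = δ ^ 2 → X ≤ am → Y < k1 ∧ k2 < Y) ∧ (am < c * k2 ∧ am ≤ r ∨
        am = -(2 * r)) := by
    have hne : (insert (-(2 * r)) (S3.image h)).Nonempty := Finset.insert_nonempty _ _
    refine ⟨(insert (-(2 * r)) (S3.image h)).max' hne, fun j hj => Finset.le_max' _ _ (by
      exact Finset.mem_insert_of_mem (Finset.mem_image_of_mem h hj)), ?_⟩
    have hmem := Finset.max'_mem _ hne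
    rcases Finset.mem_insert.1 hmem with h3 | h3
    · rw [h3]
      refine ⟨fun X Y hQ hX => ?_, Or.inr rfl⟩
      have := (hXr X Y hQ).1
      linarith
    · obtain ⟨i, hi, h4⟩ := Finset.mem_image.1 h3
      rw [← h4]
      obtain ⟨hiS, hi1⟩ := Finset.mem_filter.1 hi
      refine ⟨fun X Y hQ hX => ⟨?_, ?_⟩, Or.inl ⟨hi1, (hb' i).2⟩⟩
      · by_contra hY
        have := quad hcs (hk1b i hiS).1 (X := X) (Y := Y)
          (mul_nonneg_of_nonpos_of_nonpos (by linarith) (by linarith))
          (mul_nonneg (hk1b i hiS).2 (by linarith [not_lt.1 hY]))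
        linarith
      · by_contra hY
        have := quad hcs (hk2b i hiS).1 (X := X) (Y := Y)
          (mul_nonneg_of_nonpos_of_nonpos (by linarith) (by linarith))
          (mul_nonneg_of_nonpos_of_nonpos (hk2b i hiS).2.le (by linarith [not_lt.1 hY]))
        linarith
  have hsub1 : S1.card ≤ (Finset.univ.filter fun i => ap ≤ h i).card :=
    Finset.card_le_card fun i hi => Finset.mem_filter.2 ⟨Finset.mem_univ _, hapa i hi⟩
  have hsub3 : S3.card ≤ (Finset.univ.filter fun i => h i ≤ am).card :=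
    Finset.card_le_card fun i hi => Finset.mem_filter.2 ⟨Finset.mem_univ _, hama i hi⟩
  have hsubJ1 : J1.card ≤ (Finset.univ.filter fun i => k1 ≤ k i).card :=
    Finset.card_le_card fun i hi => Finset.mem_filter.2 ⟨Finset.mem_univ _, hk1a i hi⟩
  have hsubJ2 : J2.card ≤ (Finset.univ.filter fun i => k i ≤ k2).card :=
    Finset.card_le_card fun i hi => Finset.mem_filter.2 ⟨Finset.mem_univ _, hk2a i hi⟩
  rcases S2.eq_empty_or_nonempty with hS2e | hS2n
  · -- four caps
    have haa : am < ap := by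
      rcases hapc with ⟨h3, h4⟩ | h3 <;> rcases hamc with ⟨h5, h6⟩ | h5 <;> linarith
    have hreal : s ^ 2 * ap ^ 2 ≤ δ ^ 2 ∨ s ^ 2 * am ^ 2 ≤ δ ^ 2 := by
      by_cases hi1 : i0 ∈ S1
      · left
        refine sq_le_of_abs hs (abs_le.2 ?_)
        have h3 := hapa i0 hi1
        have h4 := hb' i0
        rcases hapc with ⟨h5, h6⟩ | h5
        · exact ⟨h6, by linarith⟩
        · linarith
      · by_cases hi3 : i0 ∈ S3
        · right
          refine sq_le_of_abs hs (abs_le.2 ?_)
          have h3 := hama i0 hi3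
          have h4 := hb' i0
          rcases hamc with ⟨h5, h6⟩ | h5
          · exact ⟨by linarith, h6⟩
          · linarith
        · exfalso
          have h3 : i0 ∈ S2 := by
            rw [hS2, Finset.mem_filter]
            rw [hS1, Finset.mem_filter, not_and] at hi1
            rw [hS3, Finset.mem_filter, not_and] at hi3
            exact ⟨hi0, not_lt.1 (hi3 hi0), not_le.1 (hi1 hi0)⟩
          rw [hS2e] at h3
          exact absurd h3 (Finset.notMem_empty _)
    have h3 := hfour ap am k1 k2 (fun X Y hQ hX => (hapb X Y hQ hX).1)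
      (fun X Y hQ hX => (hapb X Y hQ hX).2) (fun X Y hQ hX => (hamb X Y hQ hX).1)
      (fun X Y hQ hX => (hamb X Y hQ hX).2) haa hk12 hreal
    have h4 : S2.card = 0 := by rw [hS2e]; rfl
    omega
  · -- two times three caps
    obtain ⟨ihi, hihi, hhi⟩ : ∃ i ∈ S2, ∀ j ∈ S2, h j ≤ h i := Finset.exists_max_image S2 h hS2n
    obtain ⟨ilo, hilo, hlo⟩ : ∃ i ∈ S2, ∀ j ∈ S2, h i ≤ h j := Finset.exists_min_image S2 h hS2n
    obtain ⟨hihiS, hihi1, hihi2⟩ := Finset.mem_filter.1 hihi
    obtain ⟨hiloS, hilo1, hilo2⟩ := Finset.mem_filter.1 hilo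
    have hup := hfour ap (h ihi) k1 (-(2 * r)) (fun X Y hQ hX => (hapb X Y hQ hX).1)
      (fun X Y hQ _ => by linarith [(hYr X Y hQ).1])
      (fun X Y hQ hX => by
        by_contra hY
        have := quad hcs (hk1b ihi hihiS).1 (X := X) (Y := Y)
          (mul_nonneg_of_nonpos_of_nonpos (by linarith) (by linarith))
          (mul_nonneg (hk1b ihi hihiS).2 (by linarith [not_lt.1 hY]))
        linarith)
      (fun X Y hQ _ => by linarith [(hYr X Y hQ).1])
      (by
        have := hb' ihi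
        rcases hapc with ⟨h3, h4⟩ | h3 <;> linarith)
      (by
        have := (hk1b i0 hi0).2
        have := (hch i0).1
        linarith)
      (Or.inr (sq_le_of_abs hs (hb ihi)))
    have hlow := hfour (h ilo) am (2 * r) k2 (fun X Y hQ _ => by linarith [(hYr X Y hQ).2])
      (fun X Y hQ hX => by
        by_contra hY
        have := quad hcs (hk2b ilo hiloS).1 (X := X) (Y := Y)
          (mul_nonneg (by linarith) (by linarith))
          (mul_nonneg_of_nonpos_of_nonpos (hk2b ilo hiloS).2.le (by linarith [not_lt.1 hY]))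
        linarith)
      (fun X Y hQ _ => by linarith [(hYr X Y hQ).2])
      (fun X Y hQ hX => (hamb X Y hQ hX).2)
      (by
        have := hb' ilo
        rcases hamc with ⟨h3, h4⟩ | h3 <;> linarith)
      (by
        have := (hk2b i0 hi0).2
        have := (hch i0).2
        linarith)
      (Or.inl (sq_le_of_abs hs (hb ilo)))
    have hmid : Fintype.card ι + S2.card ≤ (Finset.univ.filter fun i => h i ≤ h ihi).card +
        (Finset.univ.filter fun i => h ilo ≤ h i).card := by
      rw [← Finset.card_union_add_card_inter]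
      refine Nat.add_le_add ?_ ?_
      · rw [Fintype.card]
        refine Finset.card_le_card fun i _ => ?_
        rw [Finset.mem_union, Finset.mem_filter, Finset.mem_filter]
        by_cases h3 : h i ≤ h ihi
        · exact Or.inl ⟨Finset.mem_univ _, h3⟩
        · refine Or.inr ⟨Finset.mem_univ _, ?_⟩
          have := hlo ihi hihi
          linarith [not_le.1 h3]
      · refine Finset.card_le_card fun i hi => ?_
        rw [Finset.mem_inter, Finset.mem_filter, Finset.mem_filter]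
        exact ⟨⟨Finset.mem_univ _, hhi i hi⟩, ⟨Finset.mem_univ _, hlo i hi⟩⟩
    omega

/-- **The marriage condition.** -/
theorem hall {c s δ : ℝ} (hcs : c ^ 2 + s ^ 2 = 1) (hc : 0 ≤ c) (hs : 0 < s) (hδ : 0 < δ)
    {h k : ι → ℝ} (hfour : FourCaps c s δ h k) (hb : ∀ i, |h i| ≤ δ / s) :
    ∃ f : ι → ι, Function.Injective f ∧ ∀ i, Q c (h i) (k (f i)) ≤ δ ^ 2 := by
  classical
  set t : ι → Finset ι := fun i => Finset.univ.filter fun j => Q c (h i) (k j) ≤ δ ^ 2 with ht
  have hmem : ∀ i j, j ∈ t i ↔ Q c (h i) (k j) ≤ δ ^ 2 := fun i j => by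
    rw [ht]; simp
  suffices H : ∀ m : ℕ, ∀ S : Finset ι, S.card = m → S.card ≤ (S.biUnion t).card by
    obtain ⟨f, hf1, hf2⟩ := (Finset.all_card_le_biUnion_card_iff_exists_injective t).1
      fun S => H S.card S rfl
    exact ⟨f, hf1, fun i => (hmem i _).1 (hf2 i)⟩
  intro m
  induction m using Nat.strong_induction_on with
  | _ m ih =>
    intro S hS
    rcases S.eq_empty_or_nonempty with hSe | hSn
    · rw [hSe]; simp
    set J : Finset ι := Finset.univ \ S.biUnion t with hJ
    have hJmem : ∀ j ∈ J, ∀ i ∈ S, δ ^ 2 < Q c (h i) (k j) := by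
      intro j hj i hi
      by_contra h1
      rw [hJ, Finset.mem_sdiff] at hj
      exact hj.2 (Finset.mem_biUnion.2 ⟨i, hi, (hmem i j).2 (not_lt.1 h1)⟩)
    have hJcard : J.card + (S.biUnion t).card = Fintype.card ι := by
      rw [hJ, Finset.card_sdiff_add_card_eq_card (Finset.subset_univ _), Finset.card_univ]
    by_cases hsplit : ∃ j ∈ J, (S.filter fun i => 0 ≤ k j - c * h i).Nonempty ∧
        (S.filter fun i => ¬ 0 ≤ k j - c * h i).Nonempty
    · obtain ⟨j, hj, hp, hm⟩ := hsplit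
      set Sp := S.filter fun i => 0 ≤ k j - c * h i with hSp
      set Sm := S.filter fun i => ¬ 0 ≤ k j - c * h i with hSm
      have hcard : Sp.card + Sm.card = S.card := Finset.card_filter_add_card_filter_not _
      have h1 : 0 < Sp.card := Finset.card_pos.2 hp
      have h2 : 0 < Sm.card := Finset.card_pos.2 hm
      have e1 := ih Sp.card (by omega) Sp rfl
      have e2 := ih Sm.card (by omega) Sm rfl
      have hdisj : Disjoint (Sp.biUnion t) (Sm.biUnion t) := by
        rw [Finset.disjoint_left]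
        intro l hl1 hl2
        obtain ⟨i1, hi1, hl1⟩ := Finset.mem_biUnion.1 hl1
        obtain ⟨i2, hi2, hl2⟩ := Finset.mem_biUnion.1 hl2
        obtain ⟨hi1S, hi1p⟩ := Finset.mem_filter.1 hi1
        obtain ⟨hi2S, hi2p⟩ := Finset.mem_filter.1 hi2
        have h3 : k l < k j := by
          by_contra h4
          have := quad hcs (hJmem j hj i1 hi1S) (X := h i1) (Y := k l) (by simp)
            (mul_nonneg hi1p (by linarith [not_lt.1 h4]))
          exact absurd ((hmem i1 l).1 hl1) (not_le.2 this)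
        have h4 : k j < k l := by
          by_contra h5
          have := quad hcs (hJmem j hj i2 hi2S) (X := h i2) (Y := k l) (by simp)
            (mul_nonneg_of_nonpos_of_nonpos (not_le.1 hi2p).le (by linarith [not_lt.1 h5]))
          exact absurd ((hmem i2 l).1 hl2) (not_le.2 this)
        linarith
      calc S.card = Sp.card + Sm.card := hcard.symm
        _ ≤ (Sp.biUnion t).card + (Sm.biUnion t).card := Nat.add_le_add e1 e2
        _ = (Sp.biUnion t ∪ Sm.biUnion t).card := (Finset.card_union_of_disjoint hdisj).symm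
        _ ≤ (S.biUnion t).card := by
          refine Finset.card_le_card (Finset.union_subset ?_ ?_)
          · exact Finset.biUnion_subset_biUnion_of_subset_left t (Finset.filter_subset _ _)
          · exact Finset.biUnion_subset_biUnion_of_subset_left t (Finset.filter_subset _ _)
    · push Not at hsplit
      set J1 := J.filter fun j => ∀ i ∈ S, 0 ≤ k j - c * h i with hJ1
      set J2 := J.filter fun j => ¬ ∀ i ∈ S, 0 ≤ k j - c * h i with hJ2
      have hcardJ : J1.card + J2.card = J.card := Finset.card_filter_add_card_filter_not _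
      have h3 := core hcs hc hs hδ hfour hb S J1 J2 hSn
        (fun j hj i hi => ⟨hJmem j (Finset.mem_filter.1 hj).1 i hi, (Finset.mem_filter.1 hj).2 i hi⟩)
        (fun j hj i hi => by
          obtain ⟨hjJ, hj2⟩ := Finset.mem_filter.1 hj
          refine ⟨hJmem j hjJ i hi, ?_⟩
          by_contra h4
          have h5 : (S.filter fun i => 0 ≤ k j - c * h i).Nonempty :=
            ⟨i, Finset.mem_filter.2 ⟨hi, not_lt.1 h4⟩⟩
          have h6 := hsplit j hjJ h5
          apply hj2
          intro i' hi'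
          by_contra h7
          have h8 : i' ∈ S.filter fun x => k j - c * h x < 0 :=
            Finset.mem_filter.2 ⟨hi', not_le.1 h7⟩
          rw [h6] at h8
          exact absurd h8 (Finset.notMem_empty _))
      omega

/-- **The matching for Hermitian matrices.** -/
theorem matching {V1 V2 H K : Matrix ι ι ℂ} {h k : ι → ℝ} (hV1 : V1ᴴ * V1 = 1)
    (hV2 : V2ᴴ * V2 = 1) (hH : H = V1 * diagonal (fun j => (h j : ℂ)) * V1ᴴ)
    (hK : K = V2 * diagonal (fun j => (k j : ℂ)) * V2ᴴ) {c s δ : ℝ} (hcs : c ^ 2 + s ^ 2 = 1)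
    (hs : 0 < s) (hT : ‖TT c s H K‖ < δ) :
    ∃ f : ι → ι, Function.Injective f ∧ ∀ i, Q c (h i) (k (f i)) ≤ δ ^ 2 := by
  have hδ : 0 < δ := lt_of_le_of_lt (norm_nonneg _) hT
  have hb : ∀ i, |h i| ≤ δ / s := fun i => by
    rw [le_div_iff₀ hs, mul_comm]
    exact eig_bound hV1 hH hK hs hT.le i
  rcases le_total 0 c with hc | hc
  · exact hall hcs hc hs hδ (fun ap am kp km h1 h2 h3 h4 h5 h6 h7 =>
      four_caps hV1 hV2 hH hK hcs hs hδ hT h1 h2 h3 h4 h5 h6 h7) hb
  · have hK' : -K = V2 * diagonal (fun j => ((-k j : ℝ) : ℂ)) * V2ᴴ := by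
      rw [hK]
      have : (diagonal (fun j => ((-k j : ℝ) : ℂ)) : Matrix ι ι ℂ) =
          - diagonal (fun j => (k j : ℂ)) := by
        rw [diagonal_neg]
        congr 1
        ext j
        simp
      rw [this, Matrix.mul_neg, Matrix.neg_mul]
    have hHh : Hᴴ = H := by
      rw [hH, conjTranspose_mul, conjTranspose_mul, conjTranspose_conjTranspose,
        diagonal_conjTranspose, Matrix.mul_assoc]
      congr 3
      ext j
      simp
    have hKh : Kᴴ = K := by
      rw [hK, conjTranspose_mul, conjTranspose_mul, conjTranspose_conjTranspose,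
        diagonal_conjTranspose, Matrix.mul_assoc]
      congr 3
      ext j
      simp
    have hT' : ‖TT (-c) s H (-K)‖ < δ := by
      have h1 : TT (-c) s H (-K) = (TT c s H K)ᴴ := by
        unfold TT
        rw [conjTranspose_add, conjTranspose_smul, conjTranspose_smul, conjTranspose_sub,
          conjTranspose_smul, hHh, hKh]
        simp only [Complex.star_def, Complex.conj_ofReal, Complex.conj_I]
        push_cast
        module
      rw [h1, l2_opNorm_conjTranspose]
      exact hT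
    have hcs' : (-c) ^ 2 + s ^ 2 = 1 := by rw [neg_sq]; exact hcs
    obtain ⟨f, hf1, hf2⟩ := hall hcs' (by linarith) hs hδ
      (fun ap am kp km h1 h2 h3 h4 h5 h6 h7 =>
        four_caps hV1 hV2 hH hK' hcs' hs hδ hT' h1 h2 h3 h4 h5 h6 h7) hb
    refine ⟨f, hf1, fun i => ?_⟩
    have h1 := hf2 i
    have h2 : Q (-c) (h i) (-k (f i)) = Q c (h i) (k (f i)) := by unfold Q; ring
    rw [← h2]
    exact h1

end Pool.Agent.K4H34.NM
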