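import Mathlib

/-!
# Contractions: a representation of the quadratic form by points of the unit circle

For a strict contraction `T` on `ℂ^n` and a number `g` of absolute value one there are numbers `u j`
of absolute value one and an injective contraction `W` with
`⟨T x, x⟩ = ∑ u j |(W x) j| ^ 2 + g (|x| ^ 2 - |W x| ^ 2)`.
-/

set_option autoImplicit false
set_option linter.all false

open Matrix Complex
open scoped Matrix.Norms.L2Operator ComplexOrder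

namespace Pool.Agent.K4H34.NM

variable {ι : Type} [Fintype ι] [DecidableEq ι]

/-- The square of the Euclidean norm. -/
noncomputable def nsq (x : ι → ℂ) : ℝ := ∑ j, ‖x j‖ ^ 2

theorem nsq_nonneg (x : ι → ℂ) : 0 ≤ nsq x := Finset.sum_nonneg fun _ _ => by positivity

theorem nsq_eq (x : ι → ℂ) : nsq x = ‖(WithLp.toLp 2 x : EuclideanSpace ℂ ι)‖ ^ 2 := by
  rw [EuclideanSpace.norm_sq_eq]
  rfl

theorem nsq_pos {x : ι → ℂ} (hx : x ≠ 0) : 0 < nsq x := by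
  obtain ⟨j, hj⟩ := Function.ne_iff.1 hx
  refine lt_of_lt_of_le ?_ (Finset.single_le_sum (f := fun j => ‖x j‖ ^ 2)
    (fun _ _ => by positivity) (Finset.mem_univ j))
  have : 0 < ‖x j‖ := norm_pos_iff.2 hj
  positivity

theorem star_dot (x : ι → ℂ) : star x ⬝ᵥ x = (nsq x : ℂ) := by
  unfold nsq dotProduct
  push_cast
  refine Finset.sum_congr rfl fun j _ => ?_
  rw [Pi.star_apply, Complex.star_def, ← Complex.normSq_eq_conj_mul_self, Complex.normSq_eq_norm_sq]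
  push_cast
  rfl

theorem dot_cong (W : Matrix ι ι ℂ) (γ : ι → ℂ) (x : ι → ℂ) :
    star x ⬝ᵥ ((Wᴴ * diagonal γ * W) *ᵥ x) = ∑ j, γ j * ((‖(W *ᵥ x) j‖ ^ 2 : ℝ) : ℂ) := by
  rw [← mulVec_mulVec, ← mulVec_mulVec, dotProduct_mulVec, vecMul_conjTranspose, star_star]
  unfold dotProduct
  refine Finset.sum_congr rfl fun j _ => ?_
  rw [mulVec_diagonal, Pi.star_apply, Complex.star_def, mul_left_comm,
    ← Complex.normSq_eq_conj_mul_self, Complex.normSq_eq_norm_sq]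

theorem herm_diag {A : Matrix ι ι ℂ} (hA : A.IsHermitian) :
    ∃ U : Matrix ι ι ℂ, Uᴴ * U = 1 ∧ U * Uᴴ = 1 ∧
      A = U * diagonal (fun j => (hA.eigenvalues j : ℂ)) * Uᴴ := by
  refine ⟨hA.eigenvectorUnitary, ?_, ?_, ?_⟩
  · exact Unitary.coe_star_mul_self hA.eigenvectorUnitary
  · exact Unitary.coe_mul_star_self hA.eigenvectorUnitary
  · conv_lhs => rw [hA.spectral_theorem]
    rfl

theorem sd {A1 A2 : Matrix ι ι ℂ} (h1 : A1.PosDef) (h2 : A2.IsHermitian) :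
    ∃ (W : Matrix ι ι ℂ) (σ : ι → ℝ), IsUnit W ∧ A1 = Wᴴ * W ∧
      A2 = Wᴴ * diagonal (fun j => (σ j : ℂ)) * W := by
  obtain ⟨U, hU1, hU2, hA1⟩ := herm_diag h1.isHermitian
  have hpos := fun j => h1.eigenvalues_pos j
  set d : ι → ℝ := h1.isHermitian.eigenvalues with hd
  set B : Matrix ι ι ℂ := diagonal (fun j => ((Real.sqrt (d j) : ℝ) : ℂ)) * Uᴴ with hB
  set B' : Matrix ι ι ℂ := U * diagonal (fun j => (((Real.sqrt (d j))⁻¹ : ℝ) : ℂ)) with hB'
  have hdd : (diagonal (fun j => ((Real.sqrt (d j) : ℝ) : ℂ)) : Matrix ι ι ℂ) *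
      diagonal (fun j => (((Real.sqrt (d j))⁻¹ : ℝ) : ℂ)) = 1 := by
    rw [diagonal_mul_diagonal, ← diagonal_one]
    congr 1
    ext j
    rw [← Complex.ofReal_mul, mul_inv_cancel₀ (Real.sqrt_pos.2 (hpos j)).ne']
    simp
  have hBB' : B * B' = 1 := by
    rw [hB, hB', Matrix.mul_assoc, ← Matrix.mul_assoc Uᴴ, hU1, Matrix.one_mul, hdd]
  have hB'B : B' * B = 1 := mul_eq_one_comm.1 hBB'
  have hBh : A1 = Bᴴ * B := by
    rw [hB, conjTranspose_mul, conjTranspose_conjTranspose, diagonal_conjTranspose,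
      Matrix.mul_assoc, ← Matrix.mul_assoc (diagonal _) (diagonal _), diagonal_mul_diagonal,
      ← Matrix.mul_assoc]
    conv_lhs => rw [hA1]
    congr 3
    ext j
    simp only [Pi.star_apply, Complex.star_def, Complex.conj_ofReal]
    rw [← Complex.ofReal_mul, Real.mul_self_sqrt (hpos j).le]
  have h3 : (B'ᴴ * A2 * B').IsHermitian := isHermitian_conjTranspose_mul_mul B' h2
  obtain ⟨V, hV1, hV2, hA3⟩ := herm_diag h3
  refine ⟨Vᴴ * B, h3.eigenvalues, ?_, ?_, ?_⟩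
  · refine IsUnit.mul ?_ ?_
    · exact IsUnit.of_mul_eq_one V hV1
    · exact IsUnit.of_mul_eq_one B' hBB'
  · rw [conjTranspose_mul, conjTranspose_conjTranspose, Matrix.mul_assoc, ← Matrix.mul_assoc V, hV2,
      Matrix.one_mul, hBh]
  · rw [conjTranspose_mul, conjTranspose_conjTranspose]
    have : Bᴴ * V * diagonal (fun j => (h3.eigenvalues j : ℂ)) * (Vᴴ * B) =
        Bᴴ * (V * diagonal (fun j => (h3.eigenvalues j : ℂ)) * Vᴴ) * B := by
      simp only [Matrix.mul_assoc]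
    rw [this, ← hA3]
    have h4 : Bᴴ * B'ᴴ = 1 := by rw [← conjTranspose_mul, hB'B, conjTranspose_one]
    calc A2 = (Bᴴ * B'ᴴ) * A2 * (B' * B) := by rw [h4, hB'B, Matrix.one_mul, Matrix.mul_one]
      _ = _ := by simp only [Matrix.mul_assoc]

theorem norm_mulVec_sq_le (T : Matrix ι ι ℂ) (x : ι → ℂ) : nsq (T *ᵥ x) ≤ ‖T‖ ^ 2 * nsq x := by
  rw [nsq_eq, nsq_eq, ← mul_pow]
  exact pow_le_pow_left₀ (norm_nonneg _)
    (l2_opNorm_mulVec T (WithLp.toLp 2 x : EuclideanSpace ℂ ι)) 2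

theorem norm_dot_le (T : Matrix ι ι ℂ) (x : ι → ℂ) : ‖star x ⬝ᵥ (T *ᵥ x)‖ ≤ ‖T‖ * nsq x := by
  have h1 := l2_opNorm_mulVec T (WithLp.toLp 2 x : EuclideanSpace ℂ ι)
  have h2 : star x ⬝ᵥ (T *ᵥ x) = inner ℂ (WithLp.toLp 2 x : EuclideanSpace ℂ ι)
      (WithLp.toLp 2 (T *ᵥ x)) := by
    rw [EuclideanSpace.inner_eq_star_dotProduct, dotProduct_comm]
  rw [h2, nsq_eq]
  calc _ ≤ ‖(WithLp.toLp 2 x : EuclideanSpace ℂ ι)‖ * ‖(WithLp.toLp 2 (T *ᵥ x) :
      EuclideanSpace ℂ ι)‖ := norm_inner_le_norm _ _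
    _ ≤ ‖(WithLp.toLp 2 x : EuclideanSpace ℂ ι)‖ * (‖T‖ * ‖(WithLp.toLp 2 x :
      EuclideanSpace ℂ ι)‖) := mul_le_mul_of_nonneg_left h1 (norm_nonneg _)
    _ = _ := by ring

/-- Congruence form of the representation. -/
theorem rep_aux (T : Matrix ι ι ℂ) (hT : ‖T‖ < 1) :
    ∃ (W : Matrix ι ι ℂ) (γ : ι → ℂ), IsUnit W ∧ (∀ j, 0 < (γ j).re) ∧
      (∀ j, ‖γ j‖ ^ 2 = 2 * (γ j).re) ∧ 1 - T = Wᴴ * diagonal γ * W := by
  set D : Matrix ι ι ℂ := 1 - T with hD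
  have hA1h : ((1 / 2 : ℂ) • (D + Dᴴ)).IsHermitian := by
    unfold Matrix.IsHermitian
    rw [conjTranspose_smul, conjTranspose_add, conjTranspose_conjTranspose, add_comm Dᴴ]
    simp
  have hA2h : ((1 / (2 * I) : ℂ) • (D - Dᴴ)).IsHermitian := by
    unfold Matrix.IsHermitian
    rw [conjTranspose_smul, conjTranspose_sub, conjTranspose_conjTranspose]
    have : star (1 / (2 * I) : ℂ) = - (1 / (2 * I)) := by
      rw [Complex.star_def, map_div₀, map_one, map_mul, Complex.conj_I, map_ofNat]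
      ring
    rw [this, neg_smul, ← smul_neg, neg_sub]
  have hpd : ((1 / 2 : ℂ) • (D + Dᴴ)).PosDef := by
    refine Matrix.PosDef.of_dotProduct_mulVec_pos hA1h fun x hx => ?_
    have h1 : star x ⬝ᵥ (((1 / 2 : ℂ) • (D + Dᴴ)) *ᵥ x) = ((star x ⬝ᵥ (D *ᵥ x)).re : ℂ) := by
      rw [smul_mulVec, dotProduct_smul, add_mulVec, dotProduct_add]
      have : star x ⬝ᵥ (Dᴴ *ᵥ x) = star (star x ⬝ᵥ (D *ᵥ x)) := by
        rw [star_dotProduct, star_mulVec, conjTranspose_conjTranspose, dotProduct_mulVec]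
      rw [this, Complex.star_def, Complex.add_conj, smul_eq_mul]
      push_cast
      ring
    rw [h1]
    have h2 : star x ⬝ᵥ (D *ᵥ x) = (nsq x : ℂ) - star x ⬝ᵥ (T *ᵥ x) := by
      rw [hD, sub_mulVec, one_mulVec, dotProduct_sub, star_dot]
    rw [h2, Complex.sub_re, Complex.ofReal_re]
    have h3 := norm_dot_le T x
    have h4 := Complex.re_le_norm (star x ⬝ᵥ (T *ᵥ x))
    have h5 := nsq_pos hx
    have : 0 < nsq x - (star x ⬝ᵥ (T *ᵥ x)).re := by nlinarith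
    exact_mod_cast this
  obtain ⟨W, σ, hW, h1, h2⟩ := sd hpd hA2h
  have hDW : D = Wᴴ * diagonal (fun j => 1 + I * (σ j : ℂ)) * W := by
    have h3 : D = (1 / 2 : ℂ) • (D + Dᴴ) + I • ((1 / (2 * I) : ℂ) • (D - Dᴴ)) := by
      rw [smul_smul]
      have : I * (1 / (2 * I)) = 1 / 2 := by field_simp
      rw [this, ← smul_add]
      have h5 : D + Dᴴ + (D - Dᴴ) = (2 : ℂ) • D := by rw [two_smul]; abel
      rw [h5, smul_smul]
      norm_num
    have h4 : (diagonal (fun j => 1 + I * (σ j : ℂ)) : Matrix ι ι ℂ) =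
        1 + I • diagonal (fun j => (σ j : ℂ)) := by
      rw [← diagonal_one, ← diagonal_smul, diagonal_add]
      rfl
    rw [h4, Matrix.mul_add, Matrix.add_mul, Matrix.mul_one, ← h1, Matrix.mul_smul, Matrix.smul_mul,
      ← h2]
    exact h3
  set r : ι → ℝ := fun j => Real.sqrt ((1 + σ j ^ 2) / 2) with hr
  have hr0 : ∀ j, 0 < r j := fun j => Real.sqrt_pos.2 (by positivity)
  have hr2 : ∀ j, r j * r j = (1 + σ j ^ 2) / 2 := fun j => Real.mul_self_sqrt (by positivity)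
  refine ⟨diagonal (fun j => (r j : ℂ)) * W, fun j => (2 / (1 + σ j ^ 2) : ℝ) * (1 + I * (σ j : ℂ)),
    ?_, ?_, ?_, ?_⟩
  · refine IsUnit.mul ?_ hW
    refine IsUnit.of_mul_eq_one (diagonal (fun j => ((r j : ℂ))⁻¹)) ?_
    rw [diagonal_mul_diagonal, ← diagonal_one]
    congr 1
    ext j
    exact mul_inv_cancel₀ (by exact_mod_cast (hr0 j).ne')
  · intro j
    simp only [Complex.re_ofReal_mul, Complex.add_re, Complex.one_re, Complex.mul_re, Complex.I_re,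
      Complex.I_im, Complex.ofReal_re, Complex.ofReal_im]
    have : 0 < 2 / (1 + σ j ^ 2) := by positivity
    nlinarith
  · intro j
    rw [← Complex.normSq_eq_norm_sq, Complex.normSq_mul, Complex.normSq_ofReal]
    have h5 : Complex.normSq (1 + I * (σ j : ℂ)) = 1 + σ j ^ 2 := by
      rw [Complex.normSq_apply]
      simp
      ring
    rw [h5]
    simp only [Complex.re_ofReal_mul, Complex.add_re, Complex.one_re, Complex.mul_re, Complex.I_re,
      Complex.I_im, Complex.ofReal_re, Complex.ofReal_im]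
    have : (1 + σ j ^ 2) ≠ 0 := by positivity
    field_simp
    ring
  · rw [hDW, conjTranspose_mul, diagonal_conjTranspose]
    have h6 : (diagonal (star fun j => (r j : ℂ)) : Matrix ι ι ℂ) *
        diagonal (fun j => ((2 / (1 + σ j ^ 2) : ℝ) : ℂ) * (1 + I * (σ j : ℂ))) *
        diagonal (fun j => (r j : ℂ)) = diagonal (fun j => 1 + I * (σ j : ℂ)) := by
      rw [diagonal_mul_diagonal, diagonal_mul_diagonal]
      congr 1
      ext j
      simp only [Pi.star_apply, Complex.star_def, Complex.conj_ofReal]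
      have h7 : (r j : ℂ) * ((2 / (1 + σ j ^ 2) : ℝ) : ℂ) * (r j : ℂ) = 1 := by
        have : r j * (2 / (1 + σ j ^ 2)) * r j = 1 := by
          have h8 : r j * (2 / (1 + σ j ^ 2)) * r j = (r j * r j) * (2 / (1 + σ j ^ 2)) := by ring
          rw [h8, hr2]
          have : (1 + σ j ^ 2) ≠ 0 := by positivity
          field_simp
        exact_mod_cast this
      calc _ = ((r j : ℂ) * ((2 / (1 + σ j ^ 2) : ℝ) : ℂ) * (r j : ℂ)) * (1 + I * (σ j : ℂ)) := by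
            ring
        _ = _ := by rw [h7, one_mul]
    calc _ = Wᴴ * ((diagonal (star fun j => (r j : ℂ)) : Matrix ι ι ℂ) *
        diagonal (fun j => ((2 / (1 + σ j ^ 2) : ℝ) : ℂ) * (1 + I * (σ j : ℂ))) *
        diagonal (fun j => (r j : ℂ))) * W := by rw [h6]
      _ = _ := by simp only [Matrix.mul_assoc]

/-- `W` in the congruence form is a contraction. -/
theorem contr_aux {T W : Matrix ι ι ℂ} {γ : ι → ℂ} (hT : ‖T‖ < 1) (hW : IsUnit W)
    (hγ : ∀ j, 0 < (γ j).re) (hγ2 : ∀ j, ‖γ j‖ ^ 2 = 2 * (γ j).re)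
    (h : 1 - T = Wᴴ * diagonal γ * W) (x : ι → ℂ) : nsq (W *ᵥ x) ≤ nsq x := by
  -- first for the adjoint
  have hadj : ∀ y : ι → ℂ, nsq (Wᴴ *ᵥ y) ≤ nsq y := by
    intro y
    have hγ0 : ∀ j, γ j ≠ 0 := fun j hj => by have := hγ j; rw [hj] at this; simp at this
    obtain ⟨v, hv⟩ : ∃ v : ι → ℂ, y = (diagonal (star γ) * W) *ᵥ v := by
      have hu : IsUnit (diagonal (star γ) * W) := by
        refine IsUnit.mul ?_ hW
        refine IsUnit.of_mul_eq_one (diagonal (fun j => (star (γ j))⁻¹)) ?_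
        rw [diagonal_mul_diagonal, ← diagonal_one]
        congr 1
        ext j
        exact mul_inv_cancel₀ (by simpa using hγ0 j)
      obtain ⟨v, hv⟩ := (Matrix.mulVec_surjective_iff_isUnit.2 hu) y
      exact ⟨v, hv.symm⟩
    have h1 : Wᴴ *ᵥ y = (1 - T)ᴴ *ᵥ v := by
      rw [h, conjTranspose_mul, conjTranspose_mul, conjTranspose_conjTranspose,
        diagonal_conjTranspose, hv, mulVec_mulVec]
    have h2 : nsq y = 2 * (star v ⬝ᵥ ((1 - T) *ᵥ v)).re := by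
      rw [h, dot_cong, hv, ← mulVec_mulVec, Complex.re_sum, Finset.mul_sum]
      unfold nsq
      refine Finset.sum_congr rfl fun j _ => ?_
      rw [mulVec_diagonal, norm_mul, mul_pow, Pi.star_apply, norm_star, hγ2, Complex.re_mul_ofReal]
      ring
    have h3 : nsq ((1 - T)ᴴ *ᵥ v) = nsq v - 2 * (star v ⬝ᵥ (T *ᵥ v)).re + nsq (Tᴴ *ᵥ v) := by
      have h4 : ((nsq ((1 - T)ᴴ *ᵥ v) : ℝ) : ℂ) = (nsq v : ℂ) - star v ⬝ᵥ (T *ᵥ v) -
          star (star v ⬝ᵥ (T *ᵥ v)) + (nsq (Tᴴ *ᵥ v) : ℂ) := by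
        rw [← star_dot, ← star_dot, ← star_dot, conjTranspose_sub, conjTranspose_one, sub_mulVec,
          one_mulVec, star_sub, sub_dotProduct, dotProduct_sub, dotProduct_sub]
        have h5 : star (Tᴴ *ᵥ v) ⬝ᵥ v = star v ⬝ᵥ (T *ᵥ v) := by
          rw [star_mulVec, conjTranspose_conjTranspose, dotProduct_mulVec]
        have h6 : star v ⬝ᵥ (Tᴴ *ᵥ v) = star (star v ⬝ᵥ (T *ᵥ v)) := by
          rw [star_dotProduct, star_mulVec, conjTranspose_conjTranspose, dotProduct_mulVec]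
        rw [h5, h6]
        ring
      have h7 := congrArg Complex.re h4
      simp only [Complex.ofReal_re, Complex.add_re, Complex.sub_re, Complex.star_def,
        Complex.conj_re] at h7
      rw [h7]
      ring
    have h8 : (star v ⬝ᵥ ((1 - T) *ᵥ v)).re = nsq v - (star v ⬝ᵥ (T *ᵥ v)).re := by
      rw [sub_mulVec, one_mulVec, dotProduct_sub, star_dot, Complex.sub_re, Complex.ofReal_re]
    have h9 : nsq (Tᴴ *ᵥ v) ≤ nsq v := by
      have h10 := norm_mulVec_sq_le Tᴴ v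
      rw [l2_opNorm_conjTranspose] at h10
      have h11 : ‖T‖ ^ 2 ≤ 1 := by
        have := norm_nonneg T
        nlinarith
      nlinarith [nsq_nonneg v]
    rw [h1, h2, h3, h8]
    linarith
  -- then for `W`
  have h1 : ((nsq (W *ᵥ x) : ℝ) : ℂ) = star x ⬝ᵥ (Wᴴ *ᵥ (W *ᵥ x)) := by
    rw [← star_dot, star_mulVec]
    exact (dotProduct_mulVec _ _ _).symm
  have h2 : nsq (W *ᵥ x) ≤ ‖(WithLp.toLp 2 x : EuclideanSpace ℂ ι)‖ *
      ‖(WithLp.toLp 2 (Wᴴ *ᵥ (W *ᵥ x)) : EuclideanSpace ℂ ι)‖ := by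
    have h3 : star x ⬝ᵥ (Wᴴ *ᵥ (W *ᵥ x)) = inner ℂ (WithLp.toLp 2 x : EuclideanSpace ℂ ι)
        (WithLp.toLp 2 (Wᴴ *ᵥ (W *ᵥ x))) := by
      rw [EuclideanSpace.inner_eq_star_dotProduct, dotProduct_comm]
    have h4 := norm_inner_le_norm (𝕜 := ℂ) (WithLp.toLp 2 x : EuclideanSpace ℂ ι)
      (WithLp.toLp 2 (Wᴴ *ᵥ (W *ᵥ x)))
    rw [← h3, ← h1, Complex.norm_real, Real.norm_eq_abs, abs_of_nonneg (nsq_nonneg _)] at h4
    exact h4
  have h5 := hadj (W *ᵥ x)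
  have h6 : (nsq (W *ᵥ x)) ^ 2 ≤ nsq x * nsq (W *ᵥ x) := by
    calc (nsq (W *ᵥ x)) ^ 2 ≤ (‖(WithLp.toLp 2 x : EuclideanSpace ℂ ι)‖ *
      ‖(WithLp.toLp 2 (Wᴴ *ᵥ (W *ᵥ x)) : EuclideanSpace ℂ ι)‖) ^ 2 :=
          pow_le_pow_left₀ (nsq_nonneg _) h2 2
      _ = nsq x * nsq (Wᴴ *ᵥ (W *ᵥ x)) := by rw [mul_pow, nsq_eq, nsq_eq]
      _ ≤ nsq x * nsq (W *ᵥ x) := mul_le_mul_of_nonneg_left h5 (nsq_nonneg _)
  rcases eq_or_lt_of_le (nsq_nonneg (W *ᵥ x)) with h7 | h7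
  · rw [← h7]; exact nsq_nonneg _
  · nlinarith

/-- **The representation of a strict contraction.** -/
theorem rep (T : Matrix ι ι ℂ) (hT : ‖T‖ < 1) (g : ℂ) (hg : ‖g‖ = 1) :
    ∃ (W : Matrix ι ι ℂ) (u : ι → ℂ), (∀ x, W *ᵥ x = 0 → x = 0) ∧ (∀ j, ‖u j‖ = 1) ∧
      (∀ x, nsq (W *ᵥ x) ≤ nsq x) ∧
      ∀ x, star x ⬝ᵥ (T *ᵥ x) = ∑ j, u j * ((‖(W *ᵥ x) j‖ ^ 2 : ℝ) : ℂ) +
        g * ((nsq x - nsq (W *ᵥ x) : ℝ) : ℂ) := by
  have hgg : g * star g = 1 := by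
    rw [Complex.star_def, Complex.mul_conj, Complex.normSq_eq_norm_sq, hg]
    simp
  have hT' : ‖star g • T‖ < 1 := by
    rw [norm_smul, norm_star, hg, one_mul]
    exact hT
  obtain ⟨W, γ, hW, hγ, hγ2, h⟩ := rep_aux (star g • T) hT'
  refine ⟨W, fun j => g * (1 - γ j), ?_, ?_, fun x => contr_aux hT' hW hγ hγ2 h x, ?_⟩
  · intro x hx
    have := Matrix.mulVec_injective_iff_isUnit.2 hW
    exact this (by rw [hx, mulVec_zero])
  · intro j
    rw [norm_mul, hg, one_mul]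
    have h1 : ‖1 - γ j‖ ^ 2 = 1 := by
      rw [← Complex.normSq_eq_norm_sq, Complex.normSq_sub, Complex.normSq_one,
        Complex.normSq_eq_norm_sq, hγ2]
      simp
    nlinarith [norm_nonneg (1 - γ j)]
  · intro x
    have h1 : star x ⬝ᵥ ((1 - star g • T) *ᵥ x) =
        ∑ j, γ j * ((‖(W *ᵥ x) j‖ ^ 2 : ℝ) : ℂ) := by rw [h, dot_cong]
    rw [sub_mulVec, one_mulVec, dotProduct_sub, star_dot, smul_mulVec, dotProduct_smul,
      smul_eq_mul] at h1
    have h2 : star x ⬝ᵥ (T *ᵥ x) = g * (star g * (star x ⬝ᵥ (T *ᵥ x))) := by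
      rw [← mul_assoc, hgg, one_mul]
    have h3 : star g * (star x ⬝ᵥ (T *ᵥ x)) = (nsq x : ℂ) -
        ∑ j, γ j * ((‖(W *ᵥ x) j‖ ^ 2 : ℝ) : ℂ) := by rw [← h1]; ring
    rw [h2, h3]
    have h4 : ∑ j, g * (1 - γ j) * ((‖(W *ᵥ x) j‖ ^ 2 : ℝ) : ℂ) = g * ((nsq (W *ᵥ x) : ℝ) : ℂ) -
        g * ∑ j, γ j * ((‖(W *ᵥ x) j‖ ^ 2 : ℝ) : ℂ) := by
      unfold nsq
      push_cast
      rw [Finset.mul_sum, Finset.mul_sum, ← Finset.sum_sub_distrib]
      refine Finset.sum_congr rfl fun j _ => ?_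
      ring
    rw [h4]
    push_cast
    ring

end Pool.Agent.K4H34.NM
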